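import Pool.Agent.N623.CS.Stm

/-!
# Carlson–Simpson space: equivalence relations with infinitely many classes as rigid surjections

Proof of the statement `Pool.Agent.N623.CS.S_TR`.
-/

set_option autoImplicit false

namespace Pool.Agent.N953.CS

open Set Pool.Agent.N623.CS

/-- The first occurrence of the letter `n`. -/
private noncomputable def fo (f : RS) (n : ℕ) : ℕ := sInf {m | f.1 m = n}

private theorem fo_spec (f : RS) (n : ℕ) : f.1 (fo f n) = n :=
  Nat.sInf_mem (s := {m | f.1 m = n}) (f.2.2 n)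

private theorem fo_le (f : RS) {n m : ℕ} (h : f.1 m = n) : fo f n ≤ m :=
  Nat.sInf_le (s := {m | f.1 m = n}) h

private theorem fo_min (f : RS) {n j : ℕ} (h : j < fo f n) : f.1 j ≠ n := by
  intro h'
  have := fo_le f h'
  omega

private theorem fo_eq (f : RS) {n m : ℕ} (h : f.1 m = n) (h' : ∀ j, j < m → f.1 j ≠ n) :
    fo f n = m := by
  have h1 := fo_le f h
  rcases Nat.lt_or_ge (fo f n) m with h2 | h2
  · exact absurd (fo_spec f n) (h' _ h2)
  · omega

private theorem fo_strictMono (f : RS) : StrictMono (fo f) := by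
  intro n n' hn
  obtain ⟨i, hi, hi'⟩ := f.2.1 (fo f n') n (by rw [fo_spec]; exact hn)
  have := fo_le f hi'
  omega

/-- Letters before the first occurrence of `n` are smaller than `n`. -/
private theorem lt_of_lt_fo (f : RS) {n j : ℕ} (h : j < fo f n) : f.1 j < n := by
  rcases Nat.lt_trichotomy (f.1 j) n with h1 | h1 | h1
  · exact h1
  · exact absurd h1 (fo_min f h)
  · obtain ⟨i, hi, hi'⟩ := f.2.1 j n h1
    exact absurd hi' (fo_min f (hi.trans h))

private theorem mem_mins_ker (f : RS) (m : ℕ) : m ∈ mins (Setoid.ker f.1) ↔ ∃ n, fo f n = m := by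
  constructor
  · intro h
    exact ⟨f.1 m, fo_eq f rfl (fun j hj h' => h j hj h')⟩
  · rintro ⟨n, rfl⟩ k hk h
    have h' : f.1 k = f.1 (fo f n) := h
    rw [fo_spec] at h'
    exact fo_min f hk h'

private theorem mins_ker (f : RS) : mins (Setoid.ker f.1) = Set.range (fo f) := by
  ext m
  rw [mem_mins_ker]
  rfl

private theorem nth_eq_of_range {p : ℕ → Prop} {s : ℕ → ℕ} (hs : StrictMono s)
    (hp : ∀ m, p m ↔ ∃ n, s n = m) (n : ℕ) : Nat.nth p n = s n := by
  classical
  have h1 : Nat.count p (s n) = n := by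
    rw [Nat.count_eq_card_filter_range]
    have : (Finset.range (s n)).filter p = (Finset.range n).image s := by
      ext m
      simp only [Finset.mem_filter, Finset.mem_range, Finset.mem_image]
      constructor
      · rintro ⟨h2, h3⟩
        obtain ⟨k, rfl⟩ := (hp m).1 h3
        exact ⟨k, hs.lt_iff_lt.1 h2, rfl⟩
      · rintro ⟨k, hk, rfl⟩
        exact ⟨hs hk, (hp _).2 ⟨k, rfl⟩⟩
    rw [this, Finset.card_image_of_injective _ hs.injective, Finset.card_range]
  have h2 := Nat.nth_count (p := p) ((hp (s n)).2 ⟨n, rfl⟩)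
  rw [h1] at h2
  exact h2

/-- The kernel of a rigid surjection. -/
private def rho (f : RS) : EInf :=
  ⟨Setoid.ker f.1, by
    rw [mins_ker]
    exact Set.infinite_range_of_injective (fo_strictMono f).injective⟩

private theorem rho_r (f : RS) (k m : ℕ) : (rho f).1.r k m ↔ f.1 k = f.1 m := Iff.rfl

private theorem mu_rho (f : RS) (n : ℕ) : mu (rho f) n = fo f n :=
  nth_eq_of_range (fo_strictMono f) (fun m => mem_mins_ker f m) n

private theorem code_rho (f : RS) (p : ℕ × ℕ) : code (rho f) p = decide (f.1 p.2 = p.1) := by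
  unfold code
  have : (rho f).1.r p.2 (mu (rho f) p.1) ↔ f.1 p.2 = p.1 := by
    rw [rho_r, mu_rho, fo_spec]
  simp only [this]

private theorem continuous_rho : Continuous rho := by
  refine continuous_induced_rng.2 ?_
  have h : (code ∘ rho) = fun (f : RS) (p : ℕ × ℕ) => decide (f.1 p.2 = p.1) := by
    funext f p
    exact code_rho f p
  rw [h]
  refine continuous_pi (fun p => ?_)
  have h1 : Continuous (fun f : RS => f.1 p.2) :=
    (continuous_apply p.2).comp continuous_subtype_val
  have h2 : Continuous (fun k : ℕ => decide (k = p.1)) := continuous_of_discreteTopology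
  exact h2.comp h1

private theorem cntE_rho (f : RS) (n : ℕ) : cntE (rho f) n = cnt f.1 n := by
  unfold cntE cnt
  congr 1
  ext m
  simp only [Finset.mem_filter, Finset.mem_range]
  exact Iff.rfl

private theorem relE_rho (f g : RS) : relE.r (rho f) (rho g) ↔ Close f.1 g.1 := by
  have h : relE.r (rho f) (rho g) ↔
      ∃ N : ℕ, ∀ n, cntE (rho f) n ≤ cntE (rho g) n + N ∧ cntE (rho g) n ≤ cntE (rho f) n + N :=
    Iff.rfl
  rw [h]
  unfold Close
  simp only [cntE_rho]

private theorem mu_mem (A : EInf) (n : ℕ) : mu A n ∈ mins A.1 := Nat.nth_mem_of_infinite A.2 n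

private theorem mu_strictMono (A : EInf) : StrictMono (mu A) := Nat.nth_strictMono A.2

private theorem mins_unique (A : Setoid ℕ) {k m : ℕ} (hk : k ∈ mins A) (hm : m ∈ mins A)
    (h : A.r k m) : k = m := by
  rcases Nat.lt_trichotomy k m with h1 | h1 | h1
  · exact absurd h (hm k h1)
  · exact h1
  · exact absurd (A.symm' h) (hk m h1)

private theorem exists_mu (A : EInf) (m : ℕ) : ∃ n, A.1.r m (mu A n) ∧ mu A n ≤ m := by
  classical
  have hne : ∃ k, A.1.r k m := ⟨m, A.1.refl' m⟩
  have h1 := Nat.find_spec hne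
  have h2 : Nat.find hne ∈ mins A.1 := by
    intro k hk hkk
    exact Nat.find_min hne hk (A.1.trans' hkk h1)
  obtain ⟨n, hn⟩ : ∃ n, mu A n = Nat.find hne :=
    ⟨Nat.count (fun m => m ∈ mins A.1) (Nat.find hne),
      Nat.nth_count (p := fun m => m ∈ mins A.1) h2⟩
  refine ⟨n, ?_, ?_⟩
  · rw [hn]
    exact A.1.symm' h1
  · rw [hn]
    exact Nat.find_min' hne (A.1.refl' m)

private theorem rho_surj : Function.Surjective rho := by
  intro A
  choose f hf1 hf2 using exists_mu A
  have huniq : ∀ m n, A.1.r m (mu A n) → f m = n := by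
    intro m n h
    have h1 : A.1.r (mu A (f m)) (mu A n) := A.1.trans' (A.1.symm' (hf1 m)) h
    exact (mu_strictMono A).injective (mins_unique A.1 (mu_mem A _) (mu_mem A _) h1)
  have hmu : ∀ n, f (mu A n) = n := fun n => huniq _ _ (A.1.refl' _)
  have hRS : IsRS f := by
    refine ⟨fun m v hv => ⟨mu A v, ?_, hmu v⟩, fun v => ⟨mu A v, hmu v⟩⟩
    exact lt_of_lt_of_le (mu_strictMono A hv) (hf2 m)
  refine ⟨⟨f, hRS⟩, ?_⟩
  apply Subtype.ext
  ext k m
  change f k = f m ↔ A.1.r k m
  constructor
  · intro h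
    have h1 := hf1 k
    rw [h] at h1
    exact A.1.trans' h1 (A.1.symm' (hf1 m))
  · intro h
    exact huniq k (f m) (A.1.trans' h (hf1 m))

/-- Two rigid surjections with the same kernel on an initial segment agree there. -/
private theorem agree (f b : RS) (L : ℕ) (h : ∀ i j, i < L → j < L → (b.1 i = b.1 j ↔ f.1 i = f.1 j)) :
    ∀ i, i < L → b.1 i = f.1 i := by
  intro i
  induction i using Nat.strong_induction_on with
  | _ i ih =>
    intro hi
    rcases Nat.lt_trichotomy (b.1 i) (f.1 i) with h1 | h1 | h1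
    · obtain ⟨j, hj, hj'⟩ := f.2.1 i _ h1
      have h2 := ih j hj (hj.trans hi)
      rw [hj'] at h2
      have h3 := (h j i (hj.trans hi) hi).1 h2
      omega
    · exact h1
    · obtain ⟨j, hj, hj'⟩ := b.2.1 i _ h1
      have h2 := ih j hj (hj.trans hi)
      rw [hj'] at h2
      have h3 := (h j i (hj.trans hi) hi).2 h2.symm
      omega

private theorem last_clause (s : FinEq) (A : EInf) (f : RS) (hf : rho f ∈ cube s A) :
    ∃ d, 0 < d ∧ (∀ h ∈ K d, rho (h * f) ∈ cube s A) ∧
      ∀ h ∈ K d, ∀ B ∈ cube s (rho (h * f)), ∃ g ∈ K d, B = rho (g * h * f) := by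
  obtain ⟨hle, n, hlen, hrel⟩ := hf
  rw [mu_rho] at hlen
  have hbound : ∀ m, m ≤ fo f n → f.1 m < n + 1 := by
    intro m hm
    rcases Nat.lt_or_ge m (fo f n) with h1 | h1
    · have := lt_of_lt_fo f h1
      omega
    · have h2 : m = fo f n := by omega
      rw [h2, fo_spec]
      omega
  have hsame : ∀ h ∈ K (n + 1), ∀ m, m ≤ fo f n → (h * f).1 m = f.1 m := by
    intro h hh m hm
    exact hh (f.1 m) (hbound m hm)
  have hfo : ∀ h ∈ K (n + 1), fo (h * f) n = fo f n := by
    intro h hh
    refine fo_eq _ ?_ ?_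
    · rw [hsame h hh _ le_rfl, fo_spec]
    · intro j hj
      rw [hsame h hh _ hj.le]
      exact fo_min f hj
  refine ⟨n + 1, Nat.succ_pos n, ?_, ?_⟩
  · intro h hh
    refine ⟨?_, n, ?_, ?_⟩
    · intro k m hkm
      have h1 : f.1 k = f.1 m := hle k m hkm
      change h.1 (f.1 k) = h.1 (f.1 m)
      rw [h1]
    · rw [mu_rho, hfo h hh]
      exact hlen
    · intro i j
      rw [hrel i j, rho_r, rho_r, hsame h hh i.1 (by have := i.2; omega),
        hsame h hh j.1 (by have := j.2; omega)]
  · intro h hh B hB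
    obtain ⟨b, rfl⟩ := rho_surj B
    obtain ⟨hleb, n', hlen', hrel'⟩ := hB
    rw [mu_rho] at hlen'
    obtain ⟨f', hf'⟩ : ∃ f' : RS, f' = h * f := ⟨_, rfl⟩
    rw [← hf'] at hleb
    have hlenf' : s.len = fo f' n := by rw [hf', hfo h hh]; exact hlen
    have hker : ∀ i j, i < s.len → j < s.len → (b.1 i = b.1 j ↔ f'.1 i = f'.1 j) := by
      intro i j hi hj
      have h1 := hrel' ⟨i, hi⟩ ⟨j, hj⟩
      have h2 := hrel ⟨i, hi⟩ ⟨j, hj⟩
      rw [rho_r] at h1 h2
      rw [← h1, h2, hf', hsame h hh i (by omega), hsame h hh j (by omega)]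
    have hagree := agree f' b s.len hker
    have hnn : n = n' := by
      rcases Nat.lt_trichotomy n n' with h1 | h1 | h1
      · obtain ⟨i, hi, hi'⟩ := b.2.1 (fo b n') n (by rw [fo_spec]; exact h1)
        rw [← hlen'] at hi
        rw [hagree i hi] at hi'
        rw [hlenf'] at hi
        exact absurd hi' (fo_min f' hi)
      · exact h1
      · obtain ⟨i, hi, hi'⟩ := f'.2.1 (fo f' n) n' (by rw [fo_spec]; exact h1)
        rw [← hlenf'] at hi
        rw [← hagree i hi] at hi'
        rw [hlen'] at hi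
        exact absurd hi' (fo_min b hi)
    have hagree' : ∀ i, i ≤ s.len → b.1 i = f'.1 i := by
      intro i hi
      rcases Nat.lt_or_ge i s.len with h1 | h1
      · exact hagree i h1
      · have h2 : i = s.len := by omega
        rw [h2]
        conv_lhs => rw [hlen', fo_spec]
        conv_rhs => rw [hlenf', fo_spec]
        exact hnn.symm
    have hfac : ∀ m, b.1 (fo f' (f'.1 m)) = b.1 m := by
      intro m
      exact hleb _ _ (fo_spec f' (f'.1 m))
    have hg : IsRS (fun k => b.1 (fo f' k)) := by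
      refine ⟨?_, ?_⟩
      · intro k v hv
        obtain ⟨i, hi, hi'⟩ := b.2.1 (fo f' k) v hv
        refine ⟨f'.1 i, lt_of_lt_fo f' hi, ?_⟩
        change b.1 (fo f' (f'.1 i)) = v
        rw [hfac, hi']
      · intro v
        obtain ⟨i, hi⟩ := b.2.2 v
        refine ⟨f'.1 i, ?_⟩
        change b.1 (fo f' (f'.1 i)) = v
        rw [hfac, hi]
    refine ⟨⟨_, hg⟩, ?_, ?_⟩
    · intro v hv
      change b.1 (fo f' v) = v
      have h1 : fo f' v ≤ s.len := by
        rw [hlenf']
        exact (fo_strictMono f').monotone (by omega)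
      rw [hagree' _ h1, fo_spec]
    · congr 1
      apply Subtype.ext
      funext m
      have h1 := hfac m
      rw [hf'] at h1
      have h2 : b.1 (fo f' (h.1 (f.1 m))) = b.1 m := by
        rw [hf']
        exact h1
      exact h2.symm

/-- Equivalence relations with infinitely many classes as rigid surjections. -/
theorem t_tr : S_TR :=
  ⟨rho, continuous_rho, rho_surj, relE_rho, last_clause⟩

end Pool.Agent.N953.CS
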